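import Pool.Agent.H483R3.Cyc.Stmts

set_option autoImplicit false

namespace Pool.Agent.H666R3.CycSpec1

open Finset H483C

theorem two_ne {N : ℕ} (v : Fin (N + 3)) : v + 1 + 1 ≠ v := by
  intro h
  have h1 : (1 + 1 : Fin (N + 3)) = 0 := by
    rw [add_assoc] at h
    simpa using h
  have h2 := congrArg Fin.val h1
  simp [Fin.val_add] at h2
  rw [Nat.mod_eq_of_lt (by omega)] at h2
  omega

theorem A_eq {N : ℕ} (u v : Fin (N + 3)) :
    (A 1 u v : ℝ) = (if u = v + 1 then 1 else 0) + (if u = v - 1 then 1 else 0) := by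
  unfold A wt
  have h3 : (u + 1 = v) ↔ (u = v - 1) := by rw [eq_sub_iff_add_eq]
  by_cases h1 : u = v + 1
  · have h2 : ¬ (u = v - 1) := by
      intro h
      apply two_ne v
      rw [← h1]
      exact (h3.2 h)
    rw [if_pos h1.symm, if_pos h1, if_neg h2]
    simp
  · rw [if_neg (fun h => h1 h.symm), if_neg h1]
    by_cases h2 : u = v - 1
    · rw [if_pos (h3.2 h2), if_pos h2]
      simp
    · rw [if_neg (fun h => h2 (h3.1 h)), if_neg h2]
      simp

theorem quad {N : ℕ} (x : Fin (N + 3) → ℝ) :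
    ∑ u, ∑ v, x u * (A 1 u v : ℝ) * x v =
      2 * ∑ v, x v ^ 2 - ∑ v, (x (v + 1) - x v) ^ 2 := by
  have e1 : ∑ u, ∑ v, x u * (A 1 u v : ℝ) * x v = ∑ v, (x (v + 1) * x v + x (v - 1) * x v) := by
    rw [Finset.sum_comm]
    refine Finset.sum_congr rfl fun v _ => ?_
    have : ∀ u, x u * (A 1 u v : ℝ) * x v =
        (if u = v + 1 then x u * x v else 0) + (if u = v - 1 then x u * x v else 0) := by
      intro u
      rw [A_eq]
      split_ifs <;> ring
    simp only [this, Finset.sum_add_distrib]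
    simp
  have e2 : ∑ v : Fin (N + 3), x (v - 1) * x v = ∑ v : Fin (N + 3), x v * x (v + 1) := by
    rw [← Equiv.sum_comp (Equiv.addRight (1 : Fin (N + 3))) (fun v => x (v - 1) * x v)]
    refine Finset.sum_congr rfl fun v _ => ?_
    simp
  have e3 : ∑ v : Fin (N + 3), x (v + 1) ^ 2 = ∑ v : Fin (N + 3), x v ^ 2 :=
    Equiv.sum_comp (Equiv.addRight (1 : Fin (N + 3))) (fun v => x v ^ 2)
  have e4 : ∑ v : Fin (N + 3), (x (v + 1) - x v) ^ 2 =
      ∑ v : Fin (N + 3), x (v + 1) ^ 2 + ∑ v : Fin (N + 3), x v ^ 2 -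
        2 * ∑ v : Fin (N + 3), x v * x (v + 1) := by
    rw [← Finset.sum_add_distrib, Finset.mul_sum, ← Finset.sum_sub_distrib]
    refine Finset.sum_congr rfl fun v _ => ?_
    ring
  have e5 : ∑ v : Fin (N + 3), x (v + 1) * x v = ∑ v : Fin (N + 3), x v * x (v + 1) :=
    Finset.sum_congr rfl fun v _ => mul_comm _ _
  rw [e1, Finset.sum_add_distrib, e2, e4, e3, e5]
  ring

theorem poincare {N : ℕ} (x : Fin (N + 3) → ℝ) (hx : ∑ v, x v = 0) :
    ∑ v, x v ^ 2 ≤ 4 * ((N : ℝ) + 3) ^ 3 * ∑ v, (x (v + 1) - x v) ^ 2 := by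
  set Q := ∑ v, (x (v + 1) - x v) ^ 2 with hQ
  have hQ0 : 0 ≤ Q := Finset.sum_nonneg fun _ _ => sq_nonneg _
  set s := Real.sqrt Q with hs
  have hs0 : 0 ≤ s := Real.sqrt_nonneg _
  have hss : s ^ 2 = Q := Real.sq_sqrt hQ0
  have hN0 : (0 : ℝ) ≤ N := Nat.cast_nonneg N
  have h1 : ∀ v, |x (v + 1) - x v| ≤ s := by
    intro v
    rw [hs]
    apply Real.abs_le_sqrt
    exact Finset.single_le_sum (f := fun v => (x (v + 1) - x v) ^ 2) (fun _ _ => sq_nonneg _)
      (Finset.mem_univ v)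
  have h2 : ∀ v : Fin (N + 3), |x v - x 0| ≤ (v : ℕ) * s := by
    intro v
    induction v using Fin.induction with
    | zero => simp
    | succ i ih =>
      have h3 := h1 i.castSucc
      rw [Fin.coeSucc_eq_succ] at h3
      calc |x i.succ - x 0| = |(x i.succ - x i.castSucc) + (x i.castSucc - x 0)| := by ring_nf
        _ ≤ |x i.succ - x i.castSucc| + |x i.castSucc - x 0| := abs_add_le _ _
        _ ≤ s + ((i.castSucc : Fin (N + 3)) : ℕ) * s := add_le_add h3 ih
        _ = ((i.succ : Fin (N + 3)) : ℕ) * s := by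
            simp only [Fin.val_castSucc, Fin.val_succ]
            push_cast
            ring
  have h4 : ∀ v : Fin (N + 3), |x v - x 0| ≤ ((N : ℝ) + 3) * s := by
    intro v
    refine (h2 v).trans (mul_le_mul_of_nonneg_right ?_ hs0)
    have := v.isLt.le
    exact_mod_cast this
  have h5 : |x 0| ≤ ((N : ℝ) + 3) * s := by
    have h6 : ((N : ℝ) + 3) * x 0 = - ∑ v, (x v - x 0) := by
      rw [Finset.sum_sub_distrib, hx]
      simp
    have h7 : |((N : ℝ) + 3) * x 0| ≤ ((N : ℝ) + 3) * (((N : ℝ) + 3) * s) := by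
      rw [h6, abs_neg]
      refine (Finset.abs_sum_le_sum_abs _ _).trans ((Finset.sum_le_sum fun v _ => h4 v).trans ?_)
      simp
    rw [abs_mul, abs_of_nonneg (by positivity : (0 : ℝ) ≤ (N : ℝ) + 3)] at h7
    exact le_of_mul_le_mul_left h7 (by positivity)
  have h8 : ∀ v : Fin (N + 3), x v ^ 2 ≤ (2 * (((N : ℝ) + 3) * s)) ^ 2 := by
    intro v
    have h9 : |x v| ≤ 2 * (((N : ℝ) + 3) * s) := by
      calc |x v| = |(x v - x 0) + x 0| := by ring_nf
        _ ≤ |x v - x 0| + |x 0| := abs_add_le _ _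
        _ ≤ 2 * (((N : ℝ) + 3) * s) := by linarith [h4 v]
    rw [← sq_abs (x v)]
    exact pow_le_pow_left₀ (abs_nonneg _) h9 2
  refine (Finset.sum_le_sum fun v _ => h8 v).trans (le_of_eq ?_)
  simp only [Finset.sum_const, Finset.card_univ, Fintype.card_fin, nsmul_eq_mul]
  push_cast
  rw [← hss]
  ring

theorem t : TaskSpec1 := by
  intro N
  have hN0 : (0 : ℝ) ≤ N := Nat.cast_nonneg N
  have hn : (0 : ℝ) < 4 * ((N : ℝ) + 3) ^ 3 := by positivity
  refine ⟨max 0 (2 - 1 / (4 * ((N : ℝ) + 3) ^ 3)), ?_⟩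
  constructor
  · norm_num
  · norm_num
  · intro v; norm_num
  · intro v
    simp only [A_eq, one_mul, Finset.sum_add_distrib]
    simp
    norm_num
  · intro v; simp
  · intro x
    simp only [one_mul, zero_mul, add_zero, Finset.sum_sub_distrib, Finset.sum_const,
      Finset.card_univ, Fintype.card_fin, nsmul_eq_mul]
    push_cast
    field_simp
    ring
  · intro x; simp
  · exact le_max_left _ _
  · apply max_lt (by norm_num)
    have : 0 < 1 / (4 * ((N : ℝ) + 3) ^ 3) := by positivity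
    linarith
  · intro x hx _
    simp only [one_mul] at hx
    rw [quad]
    have h1 := poincare x hx
    have h2 : 1 / (4 * ((N : ℝ) + 3) ^ 3) * ∑ v, x v ^ 2 ≤ ∑ v, (x (v + 1) - x v) ^ 2 := by
      rw [one_div, inv_mul_le_iff₀ hn]
      exact h1
    have h3 : 0 ≤ ∑ v, x v ^ 2 := Finset.sum_nonneg fun _ _ => sq_nonneg _
    calc 2 * ∑ v, x v ^ 2 - ∑ v, (x (v + 1) - x v) ^ 2
        ≤ 2 * ∑ v, x v ^ 2 - 1 / (4 * ((N : ℝ) + 3) ^ 3) * ∑ v, x v ^ 2 := by linarith
      _ = (2 - 1 / (4 * ((N : ℝ) + 3) ^ 3)) * ∑ v, x v ^ 2 := by ring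
      _ ≤ max 0 (2 - 1 / (4 * ((N : ℝ) + 3) ^ 3)) * ∑ v, x v ^ 2 :=
          mul_le_mul_of_nonneg_right (le_max_right _ _) h3

end Pool.Agent.H666R3.CycSpec1
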